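import Pool.Agent.H62.EX.Cxf
import Pool.Agent.H62.EX.Fiv
import Pool.Agent.H62.EX.Prp
import Pool.Agent.H34.EW.Bx2

/-!
Let `k, r, N ≥ 1`. There are `D, m₁` such that for all `ε > 0` there is a `B` such that for all `W ≥ 1` and `s` prime to `W`:

(1) for each colouring of the natural numbers with `r` colours, in each cube `∏ (b_j, b_j + z]` of `ℤ ^ k` of side `z ≥ B` all except
`ε z ^ k` of the `a` have ONE `m`, `1 ≤ m ≤ m₁ W`, such that for EVERY affinely independent subset `F` of `[-N, N] ^ k` there is a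
colour `q` such that for infinitely many `t`, for ALL integer points `x` of `[-N, N] ^ k`, the number `t + m (x . a)` is prime if and
only if `x ∈ F`, and then it is `≡ s (mod W)` and of colour `q`;

(2) for each `A` there are `d > 0` and `X₀` such that for each colouring, `X ≥ X₀`, `B ≤ z ≤ (log X) ^ A` and `|b_j| ≤ (log X) ^ A`, all
except `ε z ^ k` of the `a` in the cube have such an `m` that for all these `F` there is `q` with at least
`d min(1, z / log X) ^ D X / (log X) ^ (k + 1)` such numbers `t ≤ X`.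

(3) The case `k = 1`, explicit and with consecutive primes: of the `L ≥ L₀` consecutive even numbers `h = 2 n`, `M < n ≤ M + L`, at
least `(1 / 3 - ε) L` are the gap between two consecutive primes infinitely often, and for all except `ε L` of them one of
`h, 2 h, 3 h, 4 h` (of `h, 2 h, 3 h` if `3 ∣ h`) is.

(4) The case `m = 1`, explicit: in each large set `A` which misses a class modulo each small prime a proportion `(13 / (50 r)) ^ k - ε` of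
the sets `E` of `k + 1` elements has all its subsets realised by primes of one colour.
-/

set_option autoImplicit false

namespace Pool.Agent.Results.MP_8923e7_nt.BoundedDilations

open Finset

/-- the integer point `x` is in the box `[-N, N] ^ k` -/
def InBox {k : ℕ} (N : ℕ) (x : Fin k → ℤ) : Prop := ∀ i, |x i| ≤ N

/-- a finite set of integer points of the box, affinely independent over the rationals -/
def Indep {k : ℕ} (N : ℕ) (F : Finset (Fin k → ℤ)) : Prop :=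
  (∀ x ∈ F, InBox N x) ∧ AffineIndependent ℚ (fun x : F => fun i => (((x : Fin k → ℤ) i : ℤ) : ℚ))

/-- for all integer points `x` of the box `t + m (x . a)` is a natural number `p`, which for `x ∈ F` is a prime `≡ s (mod W)` of
colour `q`, and for the other `x` is not a prime -/
def Exactly {k r : ℕ} (W s : ℕ) (χ : ℕ → Fin r) (q : Fin r) (N : ℕ) (F : Finset (Fin k → ℤ)) (m : ℕ) (a : Fin k → ℤ) (t : ℕ) :
    Prop :=
  ∀ x : Fin k → ℤ, InBox N x → ∃ p : ℕ, (p : ℤ) = t + m * ∑ i, x i * a i ∧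
    (x ∈ F → p.Prime ∧ χ p = q ∧ p ≡ s [MOD W]) ∧ (x ∉ F → ¬ p.Prime)

open Classical in
theorem result : (∀ k r N : ℕ, 1 ≤ N → ∃ D m₁ : ℕ, ∀ ε : ℝ, 0 < ε → ∃ B : ℕ, ∀ W s : ℕ, 0 < W → Nat.Coprime s W →
    (∀ (χ : ℕ → Fin r) (z : ℕ) (b : Fin k → ℤ), B ≤ z →
      (((Fintype.piFinset (fun j : Fin k => Ioc (b j) (b j + z))).filter (fun a => ¬ ∃ m : ℕ, 1 ≤ m ∧ m ≤ m₁ * W ∧
        ∀ F : Finset (Fin k → ℤ), Indep N F → ∃ q : Fin r, {t : ℕ | Exactly W s χ q N F m a t}.Infinite)).card : ℝ) ≤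
          ε * (z : ℝ) ^ k) ∧
    ∀ A : ℕ, ∃ (d : ℝ) (X₀ : ℕ), 0 < d ∧ ∀ (χ : ℕ → Fin r) (X z : ℕ) (b : Fin k → ℤ), X₀ ≤ X → B ≤ z →
      (z : ℝ) ≤ Real.log X ^ A → (∀ j, |(b j : ℝ)| ≤ Real.log X ^ A) →
      (((Fintype.piFinset (fun j : Fin k => Ioc (b j) (b j + z))).filter (fun a => ¬ ∃ m : ℕ, 1 ≤ m ∧ m ≤ m₁ * W ∧
        ∀ F : Finset (Fin k → ℤ), Indep N F → ∃ q : Fin r, d * min 1 (z / Real.log X) ^ D * X ≤
          Real.log X ^ (k + 1) * ({t : ℕ | t ≤ X ∧ Exactly W s χ q N F m a t}.ncard : ℝ))).card : ℝ) ≤ ε * (z : ℝ) ^ k) ∧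
    (∀ ε : ℝ, 0 < ε → ∃ L₀ : ℕ, ∀ L : ℕ, L₀ ≤ L → ∀ M : ℕ,
      (1 / 3 - ε) * (L : ℝ) ≤ (((Ioc M (M + L)).filter (fun n =>
        {i : ℕ | Nat.nth Nat.Prime (i + 1) = Nat.nth Nat.Prime i + 2 * n}.Infinite)).card : ℝ) ∧
      (((Ioc M (M + L)).filter (fun n => ¬ ∃ j : ℕ, 1 ≤ j ∧ j ≤ 4 ∧ (3 ∣ 2 * n → j ≤ 3) ∧
        {i : ℕ | Nat.nth Nat.Prime (i + 1) = Nat.nth Nat.Prime i + j * (2 * n)}.Infinite)).card : ℝ) ≤ ε * L) ∧
    ∀ (k r : ℕ) (ε : ℝ), 0 < ε → ∃ R : ℕ, ∀ A : Finset ℕ, R ≤ A.card →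
      (∀ p : ℕ, p.Prime → p ≤ R → ∃ a : ℕ, ∀ x ∈ A, ¬ p ∣ a + x) → ∀ χ : ℕ → Fin r,
        ((13 / (50 * (r : ℝ))) ^ k - ε) * (A.card.choose (k + 1) : ℝ) ≤
          (((powersetCard (k + 1) A).filter (fun E => ∃ q : Fin r, ∀ F : Finset ℕ, F ⊆ E →
            {n : ℕ | ∀ x ∈ E, ((n + x).Prime ∧ χ (n + x) = q) ↔ x ∈ F}.Infinite)).card : ℝ) := by
  refine ⟨fun k r N hN => ?_, Pool.Agent.H62.EX.int_gap, fun k r ε hε => Pool.Agent.H62.EX.prop_tuples r k ε hε⟩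
  obtain ⟨n₁, P₁, hP₁, h1⟩ := Pool.Agent.H62.EX.boxIP k r N hN
  obtain ⟨D, n₂, P₂, hP₂, h2⟩ := Pool.Agent.H62.EX.cntX k r N hN (fun M hM => by
    obtain ⟨D, n, P, hP, h⟩ := Pool.Agent.H34.EW.box_cnt_one k r (2 * N) M hM
    exact ⟨D, n, P, hP, h⟩)
  -- the multipliers
  have hm : ∀ (P n n' W : ℕ) (I : Finset (Fin n)), 0 < P → 0 < W → I.Nonempty → P * n ≤ n' →
      1 ≤ P * W * ∑ i ∈ I, (1 : ℕ) ∧ P * W * ∑ i ∈ I, (1 : ℕ) ≤ n' * W := by
    intro P n n' W I hP hW hI hn'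
    rw [sum_const, smul_eq_mul, mul_one]
    refine ⟨Nat.mul_pos (Nat.mul_pos hP hW) hI.card_pos, ?_⟩
    have h3 : I.card ≤ n := (card_le_univ I).trans (le_of_eq (Fintype.card_fin n))
    calc P * W * I.card ≤ P * W * n := Nat.mul_le_mul_left _ h3
      _ = P * n * W := by ring
      _ ≤ n' * W := Nat.mul_le_mul_right _ hn'
  refine ⟨D, P₁ * n₁ + P₂ * n₂, fun ε hε => ?_⟩
  obtain ⟨B₁, h1⟩ := h1 (fun _ => 1) (fun _ => le_rfl) ε hε
  obtain ⟨B₂, h2⟩ := h2 (fun _ => 1) (fun _ => le_rfl) ε hε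
  refine ⟨B₁ + B₂, fun W s hW hs => ⟨fun χ z b hz => ?_, fun A => ?_⟩⟩
  · refine le_trans (Nat.cast_le.2 (card_le_card fun a ha => ?_)) (h1 W s hW hs χ z b (by omega))
    rw [mem_filter] at ha ⊢
    refine ⟨ha.1, fun hcon => ha.2 ?_⟩
    obtain ⟨I, hI, hF⟩ := hcon
    obtain ⟨h3, h4⟩ := hm P₁ n₁ (P₁ * n₁ + P₂ * n₂) W I hP₁ hW hI (Nat.le_add_right _ _)
    exact ⟨_, h3, h4, fun F hF2 => hF F hF2.1 hF2.2⟩
  · obtain ⟨d, X₀, hd, h3⟩ := h2 W s hW hs A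
    refine ⟨d, X₀, hd, fun χ X z b hX hz hz2 hb => ?_⟩
    refine le_trans (Nat.cast_le.2 (card_le_card fun a ha => ?_)) (h3 χ X z b hX (by omega) hz2 hb)
    rw [mem_filter] at ha ⊢
    refine ⟨ha.1, fun hcon => ha.2 ?_⟩
    obtain ⟨I, hI, hF⟩ := hcon
    obtain ⟨h5, h6⟩ := hm P₂ n₂ (P₁ * n₁ + P₂ * n₂) W I hP₂ hW hI (Nat.le_add_left _ _)
    exact ⟨_, h5, h6, fun F hF2 => hF F hF2.1 hF2.2⟩

end Pool.Agent.Results.MP_8923e7_nt.BoundedDilations
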