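import Pool.Agent.H21.LP.Fam
import Pool.Agent.H21.CG.Main
import Pool.Agent.H21.CG.Gap
import Pool.Agent.H21.CG.Ratio
import Pool.Agent.H34.CF.Fin3
import Pool.Agent.H21.ST.Gen

/-!
Every finite pattern `x_0, ..., x_k` of integers is, up to a perturbation bounded independently of it, a pattern
of primes which occurs infinitely often, and the perturbation may be taken in EVERY residue class modulo `Q` which
leaves the `k + 1` primes coprime to `Q`, for every `Q` coprime to some `Q₀`; moreover the pattern of all primes in any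
given neighbourhood is prescribed exactly, the prime near `x_0` is isolated (all other primes of the neighbourhood are
near `x_1, ..., x_k`), and the `k + 1` chosen primes have one colour.

For all primes `p` but at most `2 k - 1` (so for all but one if `k = 1`) and all reduced classes `A 0, ..., A k` modulo `p ^ e` there
are infinitely many runs of consecutive primes (`≡ s₀ (mod L)`) which consist of `k + 1` strings of at least `K` primes each, the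
`j`-th in the class `A j` and of bounded length, the gaps between the strings being prescribed up to a bounded error.

For all primes `p` but at most `40` any three reduced classes modulo `p ^ e` are the classes of three consecutive primes,
infinitely often, with the two gaps prescribed up to a bounded error.

For almost all integer points `a` there is ONE bounded `m` such that for EVERY affinely independent set `F` of at most three points
of the box `[-N, N] ^ k`, for infinitely many `t`, the `t + m (x . a)`, `x ∈ F`, are consecutive primes of one colour, `≡ s₀ (mod L)`.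
(So two consecutive gaps are prescribed exactly up to a bounded common factor.) The quotients of consecutive gaps are dense in `[0, ∞]`.
-/

namespace Pool.Agent.Results.MP_8923e7_nt.ConsecutiveGaps

/-- the gap between the primes number `n` and `n + 1` (the prime number `0` is `2`) -/
noncomputable def gap (n : ℕ) : ℕ := Nat.nth Nat.Prime (n + 1) - Nat.nth Nat.Prime n

/-- the primes with the indices in `[m j, m (j + 1))`, `j ≤ k`, are `k + 1` consecutive strings: the `j`-th is nonempty, has at least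
`K` members, all `≡ A j (mod q)` and `≡ s₀ (mod L)`, within `C` of each other; the `k` gaps between the strings are the `u j` up to
`C` -/
def Strings {k : ℕ} (K L s₀ q C : ℕ) (A : Fin (k + 1) → ℤ) (u : Fin k → ℕ) (m : Fin (k + 2) → ℕ) : Prop :=
  (∀ j : Fin (k + 1), m j.castSucc < m j.succ ∧ m j.castSucc + K ≤ m j.succ ∧
    (∀ i, m j.castSucc ≤ i → i < m j.succ →
      (Nat.nth Nat.Prime i : ℤ) ≡ A j [ZMOD q] ∧ Nat.nth Nat.Prime i ≡ s₀ [MOD L]) ∧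
    Nat.nth Nat.Prime (m j.succ - 1) ≤ Nat.nth Nat.Prime (m j.castSucc) + C) ∧
  ∀ j : Fin k, |(gap (m j.succ.castSucc - 1) : ℤ) - u j| ≤ C

/-- every class of shifts modulo `Q` is good -/
def Good {r : ℕ} (k : ℕ) (c : ℕ → Fin r) (L s₀ Q : ℕ) : Prop :=
  ∀ (s : ℤ) (m : Fin (k + 1) → ℤ), (∀ j, IsCoprime (s + m j) (Q : ℤ)) →
    ∃ T : ℕ, ∀ x : Fin (k + 1) → ℤ, ∃ (i : Fin r) (a : Fin (k + 1) → ℤ) (Ω : Finset ℤ),
      Function.Injective a ∧ (∀ j, |a j - x j| ≤ T ∧ a j ≡ m j [ZMOD Q] ∧ a j ∈ Ω) ∧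
      (∀ w ∈ Ω, (L : ℤ) ∣ w ∧
        (w = a 0 ∨ ∃ j : Fin k, |w - x j.succ| ≤ T ∧ w ≡ m j.succ [ZMOD Q])) ∧
      ∀ D : ℕ, {N : ℕ | N ≡ s₀ [MOD L] ∧ (N : ℤ) ≡ s [ZMOD Q] ∧
        (∀ j, c ((N : ℤ) + a j).toNat = i) ∧
        ∀ b : ℤ, |b| ≤ D → (((N : ℤ) + b).toNat.Prime ↔ b ∈ Ω)}.Infinite

/-- a set of at most three integer points of the box `[-N, N] ^ k`, affinely independent over the rationals -/
def Indep {k : ℕ} (N : ℕ) (F : Finset (Fin k → ℤ)) : Prop :=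
  F.card ≤ 3 ∧ (∀ x ∈ F, ∀ l, |x l| ≤ N) ∧ AffineIndependent ℚ (fun x : F => fun l => (((x : Fin k → ℤ) l : ℤ) : ℚ))

/-- the `t + m (x . a)`, `x ∈ F`, are primes `≡ s₀ (mod L)` of the colour `i`, and consecutive among the primes of this colour -/
def Run {r k : ℕ} (c : ℕ → Fin r) (L s₀ : ℕ) (i : Fin r) (F : Finset (Fin k → ℤ)) (m : ℕ) (a : Fin k → ℤ) (t : ℤ) : Prop :=
  (∀ x ∈ F, ∃ p : ℕ, (p : ℤ) = t + m * ∑ l, x l * a l ∧ p.Prime ∧ c p = i ∧ p ≡ s₀ [MOD L]) ∧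
    ∀ p : ℕ, p.Prime → c p = i → (∃ x ∈ F, t + m * ∑ l, x l * a l ≤ p) → (∃ x ∈ F, (p : ℤ) ≤ t + m * ∑ l, x l * a l) →
      ∃ x ∈ F, (p : ℤ) = t + m * ∑ l, x l * a l

open Classical in
theorem result :
    (∀ (r k : ℕ) (c : ℕ → Fin r) (L s₀ : ℕ), 1 ≤ k → 0 < L → Nat.Coprime s₀ L →
      (∀ Q : Fin (20 * k * r + 1) → ℕ, (∀ i, 0 < Q i) → (∀ i, Nat.Coprime (Q i) L) →
        (∀ i j, i ≠ j → Nat.Coprime (Q i) (Q j)) → ∃ i, Good k c L s₀ (Q i)) ∧
      (∃ Q₀ : ℕ, 0 < Q₀ ∧ ∀ Q : ℕ, 0 < Q → Nat.Coprime Q Q₀ → Good k c L s₀ Q) ∧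
      ∀ N : ℕ, ∃ C : ℕ, ∀ ε : ℝ, 0 < ε → ∃ B : ℕ, ∀ z : ℕ, B ≤ z → ∀ b : Fin k → ℤ,
        (((Fintype.piFinset (fun l => Finset.Ioc (b l) (b l + z))).filter (fun a : Fin k → ℤ => ¬ ∃ m : ℕ, 1 ≤ m ∧ m ≤ C ∧
          ∀ F : Finset (Fin k → ℤ), Indep N F → ∃ i : Fin r, {t : ℤ | Run c L s₀ i F m a t}.Infinite)).card : ℝ) ≤
            ε * (z : ℝ) ^ k) ∧
    (∀ k L s₀ : ℕ, 1 ≤ k → 0 < L → Nat.Coprime s₀ L → ∃ E : Finset ℕ, E.card ≤ 2 * k - 1 ∧
      ∀ p : ℕ, p.Prime → Nat.Coprime p L → p ∉ E → ∀ (e K : ℕ) (A : Fin (k + 1) → ℤ), (∀ j, ¬ (p : ℤ) ∣ A j) →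
        ∃ C : ℕ, ∀ (u : Fin k → ℕ) (B : ℕ), ∃ m : Fin (k + 2) → ℕ, B ≤ m 0 ∧ Strings K L s₀ (p ^ e) C A u m) ∧
    (∃ E : Finset ℕ, E.card ≤ 40 ∧ ∀ p : ℕ, p.Prime → p ∉ E →
      ∀ (e : ℕ) (ρ : Fin 3 → ℤ), (∀ j, ¬ (p : ℤ) ∣ ρ j) → ∃ C : ℕ, ∀ u v : ℕ,
        {n : ℕ | |(gap n : ℤ) - u| ≤ C ∧ |(gap (n + 1) : ℤ) - v| ≤ C ∧
          ∀ j : Fin 3, (Nat.nth Nat.Prime (n + j) : ℤ) ≡ ρ j [ZMOD (p ^ e : ℕ)]}.Infinite) ∧
    ∀ α : ENNReal, MapClusterPt α Filter.atTop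
      (fun n : ℕ => (gap (n + 1) : ENNReal) / (gap n : ENNReal)) := by
  refine ⟨fun r k c L s₀ hk hL hs => ⟨fun Q hQ hQL hQQ =>
    Pool.Agent.H21.LP.good_family k hk c L s₀ hL hs _ (Nat.lt_succ_self _) Q hQ hQL hQQ,
    Pool.Agent.H21.LP.good_adelic k hk c L s₀ hL hs, fun N => ?_⟩,
    fun k L s₀ hk hL hs => Pool.Agent.H21.ST.strings_gen k L s₀ hk hL hs,
    Pool.Agent.H21.LP.three_consecutive, ?_⟩
  rotate_left
  · obtain ⟨T, hT⟩ := Pool.Agent.H21.CG.iso_tuples (r := 1) (k := 2) (by norm_num)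
      (fun _ => 0) 1 1 one_pos (Nat.coprime_one_right 1)
    have h2 : ∃ T : ℕ, ∀ u v : ℕ, {n : ℕ | |(gap n : ℤ) - u| ≤ T ∧ |(gap (n + 1) : ℤ) - v| ≤ T ∧
        ∀ i ≤ 2, Nat.nth Nat.Prime (n + i) ≡ 1 [MOD 1]}.Infinite := by
      refine Pool.Agent.H21.CG.gaps 1 1 T fun x => ?_
      obtain ⟨i, a, Ω, _, h2, h3, h4⟩ := hT x
      refine ⟨a, Ω, h2, fun w hw => ?_, fun D => (h4 D).mono fun N hN => ⟨hN.1, hN.2.2⟩⟩
      obtain ⟨h5, h6⟩ := h3 w hw
      refine ⟨h5, ?_⟩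
      rcases h6 with h6 | ⟨j, h6⟩
      · exact Or.inl h6
      · fin_cases j
        · exact Or.inr (Or.inl h6)
        · exact Or.inr (Or.inr h6)
    obtain ⟨T', hT'⟩ := h2
    exact Pool.Agent.H21.CG.ratios T' fun u v => (hT' u v).mono fun n hn => ⟨hn.1, hn.2.1⟩
  obtain ⟨C, h⟩ := Pool.Agent.H34.CF.cons_fin3 k N r hk L s₀ hL hs c
  refine ⟨C, fun ε hε => ?_⟩
  obtain ⟨B, h⟩ := h ε hε
  refine ⟨B, fun z hz b => ?_⟩
  refine le_trans (Nat.cast_le.2 (Pool.Agent.H34.CF.cle fun a _ ha => ?_)) (h z b hz)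
  rintro ⟨m, hm1, hm2, hm3⟩
  exact ha ⟨m, hm1, hm2, fun F hF => hm3 F hF.2.1 hF.2.2 hF.1⟩

end Pool.Agent.Results.MP_8923e7_nt.ConsecutiveGaps
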