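import Pool.Agent.H21.WP.Fin2
import Pool.Agent.H95.RO.Fin3
import Pool.Agent.H95.RO.Fin4
import Pool.Agent.H96.RW.All
import Pool.Agent.H95.RO.Shr3

/-!
Patterns of consecutive primes. Let `p_0 < p_1 < ...` be the primes. A word `w 0, ..., w k` of reduced classes modulo `Q`
OCCURS if for some tuple `0 = h 0 < ... < h k` there are infinitely many `m` such that `m + h 0, ..., m + h k` are
consecutive primes in the classes `w 0, ..., w k` (and all `≡ s (mod L)`); it is FREQUENT if for every `η > 0` the `n` for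
which the primes `p_n, ..., p_(n+k)` have these classes and `p_(n+k) - p_n ≤ η log p_n` have positive upper density.
A SYSTEM is a modulus `Q` prime to `L` together with a rotation `α` of the torus `(ℝ/ℤ)^d`, `d ≥ 0`: the sequence
`(p_n mod Q, α p_n mod 1)`. Words in a system have letters in `(ZMod Q)ˣ × (ℝ/ℤ)^d`; they occur or are frequent in the same
sense, up to any `ε > 0` in the second component.

(1) For all primes `p` but fewer than `t k` and all `e` all words modulo `p ^ e` occur and are frequent; the same for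
all moduli coprime to some `Q₀`.
(2) For every `Q`, at all scales `H₀ ≤ H ≤ log X`, at least `φ(Q)^(k+1) / t k` of the words have at least
`c (H / log X)^K X / log X` occurrences up to `X` in windows of length `H`. Here `t 1 = 3`.
(3) Of any `T k` systems with pairwise coprime moduli and generic joint rotation, at least one has all words of length
`k + 1` (they occur and are frequent). So for some `Q₀` and some rational space of dimension at most `T k` all `(Q, α)`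
have all words of length `k + 1`, if `Q` is prime to `Q₀ L` and `α` is a real algebraic number outside the space.
(4) In every system with a generic rotation, in particular in `(α p_n mod 1)` for every irrational `α`, at least the
proportion `1 / C k` of all words of length `k + 1` occurs, and at least this proportion is frequent; `C 1 = 3`.
(5) For all primes `p` but at most one and all `e` all words `a ... a b ... b` modulo `p ^ e` occur, and for all primes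
`p` but at most one and all `e` they are frequent. Of any two systems with coprime moduli and generic joint rotation at
least one has all words `a ... a b ... b`, and in at least one they are all frequent. So there are `Q₀` and one line
`ℚ α₀ + ℚ` such that all `(Q, α)` with `Q` prime to `Q₀ L`, `α` a real number outside the line and not a Liouville number,
have all these words; the same for frequent.
-/

namespace Pool.Agent.Results.MP_8923e7_nt.ConsecutiveWords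

/-- `m + h 0 < ... < m + h k` are consecutive primes -/
def Consecutive {k : ℕ} (m : ℕ) (h : Fin (k + 1) → ℕ) : Prop :=
  StrictMono h ∧ (∀ j, (m + h j).Prime) ∧
    ∀ q : ℕ, q.Prime → m + h 0 ≤ q → q ≤ m + h (Fin.last k) → ∃ j, q = m + h j

/-- the word `w` of `k + 1` reduced classes modulo `Q` occurs -/
def Occurs (k L s Q : ℕ) (w : Fin (k + 1) → (ZMod Q)ˣ) : Prop :=
  ∃ h : Fin (k + 1) → ℕ, h 0 = 0 ∧ {m : ℕ | Consecutive m h ∧
    ∀ j, m + h j ≡ s [MOD L] ∧ ((m + h j : ℕ) : ZMod Q) = w j}.Infinite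

/-- the primes `p_n, ..., p_(n+k)` are `≡ s (mod L)` and have the classes `w` modulo `Q` -/
def Reads {k : ℕ} (L s Q : ℕ) (w : Fin (k + 1) → (ZMod Q)ˣ) (n : ℕ) : Prop :=
  ∀ j : Fin (k + 1), Nat.nth Nat.Prime (n + j) ≡ s [MOD L] ∧
    ((Nat.nth Nat.Prime (n + j) : ℕ) : ZMod Q) = w j

/-- positive upper density, with `p_(n+k) - p_n ≤ η log p_n`, for every `η > 0` -/
def Frequent (k L s Q : ℕ) (w : Fin (k + 1) → (ZMod Q)ˣ) : Prop :=
  ∀ η : ℝ, 0 < η → ∃ c : ℝ, 0 < c ∧ ∃ᶠ N : ℕ in Filter.atTop,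
    c * N ≤ ({n : ℕ | n < N ∧ Reads L s Q w n ∧ (Nat.nth Nat.Prime (n + k) : ℝ) ≤
      Nat.nth Nat.Prime n + η * Real.log (Nat.nth Nat.Prime n)}.ncard : ℝ)

/-- number of the `n` with `p_(n+k) ≤ X` and `p_(n+k) - p_n ≤ H` -/
noncomputable def number (k L s Q : ℕ) (w : Fin (k + 1) → (ZMod Q)ˣ) (X H : ℕ) : ℕ :=
  {n : ℕ | Reads L s Q w n ∧ Nat.nth Nat.Prime (n + k) ≤ X ∧
    Nat.nth Nat.Prime (n + k) ≤ Nat.nth Nat.Prime n + H}.ncard

/-- the numbers `p j` are `≡ s (mod L)`, have the classes `w j` modulo `Q`, and `α i * p j` is within `ε` of `y j i`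
modulo `1` -/
def Shows {k t : ℕ} (L s Q : ℕ) (α : Fin t → ℝ) (w : Fin (k + 1) → (ZMod Q)ˣ)
    (y : Fin (k + 1) → Fin t → ℝ) (ε : ℝ) (p : Fin (k + 1) → ℕ) : Prop :=
  ∀ j, p j ≡ s [MOD L] ∧ ((p j : ℕ) : ZMod Q) = w j ∧ ∀ i, ∃ z : ℤ, |α i * p j - y j i - z| < ε

/-- the word `(w j, y j)`, `j ≤ k`, occurs in the system `(p_n mod Q, α p_n mod 1)` -/
def OccursIn (k L s Q : ℕ) {d : ℕ} (α : Fin d → ℝ) (w : Fin (k + 1) → (ZMod Q)ˣ)
    (y : Fin (k + 1) → Fin d → ℝ) : Prop :=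
  ∀ ε : ℝ, 0 < ε → ∃ h : Fin (k + 1) → ℕ, h 0 = 0 ∧
    {m : ℕ | Consecutive m h ∧ Shows L s Q α w y ε (fun j => m + h j)}.Infinite

/-- the word `(w j, y j)`, `j ≤ k`, is frequent in the system `(p_n mod Q, α p_n mod 1)`: positive upper density, with
`p_(n+k) - p_n ≤ η log p_n`, for every `η > 0` -/
def FrequentIn (k L s Q : ℕ) {d : ℕ} (α : Fin d → ℝ) (w : Fin (k + 1) → (ZMod Q)ˣ)
    (y : Fin (k + 1) → Fin d → ℝ) : Prop :=
  ∀ ε : ℝ, 0 < ε → ∀ η : ℝ, 0 < η → ∃ c : ℝ, 0 < c ∧ ∃ᶠ N : ℕ in Filter.atTop,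
    c * N ≤ ({n : ℕ | n < N ∧ Shows L s Q α w y ε (fun j : Fin (k + 1) => Nat.nth Nat.Prime (n + j)) ∧
      (Nat.nth Nat.Prime (n + k) : ℝ) ≤
        Nat.nth Nat.Prime n + η * Real.log (Nat.nth Nat.Prime n)}.ncard : ℝ)

/-- `1` and the numbers `γ i` are linearly independent over the rationals, and every two dimensional space of rational
combinations of the `γ i` contains a nonzero number which is not a Liouville number (this holds for algebraic numbers, and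
for at most one number there is no such space) -/
def Generic {ι : Type} [Fintype ι] (γ : ι → ℝ) : Prop :=
  (∀ (z : ι → ℤ) (z₀ : ℤ), ∑ i, (z i : ℝ) * γ i = z₀ → z = 0) ∧
  ∀ z z' : ι → ℤ, (∃ i j, z i * z' j ≠ z' i * z j) → ∃ a b : ℤ,
    (∃ i, a * z i + b * z' i ≠ 0) ∧ ¬ Liouville (∑ i, ((a * z i + b * z' i : ℤ) : ℝ) * γ i)

private theorem freq_of {k L s Q : ℕ} {w : Fin (k + 1) → (ZMod Q)ˣ}
    (h : Pool.Agent.H21.WP.Freq L s Q k w) : Frequent k L s Q w := by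
  intro η hη
  obtain ⟨c, hc, h1⟩ := h η hη
  refine ⟨c, hc, h1.mono fun N hN => hN.trans (le_of_eq ?_)⟩
  congr 2
  ext n
  constructor
  · rintro ⟨⟨h2, h3⟩, h4⟩
    exact ⟨h4, h3, h2⟩
  · rintro ⟨h4, h3, h2⟩
    exact ⟨⟨h2, h3⟩, h4⟩

private theorem number_eq (k L s Q : ℕ) (w : Fin (k + 1) → (ZMod Q)ˣ) (X H : ℕ) :
    (Pool.Agent.H21.WP.Hit L s Q w X H).ncard = number k L s Q w X H := by
  unfold number
  congr 1
  have hmono := (Nat.nth_strictMono Nat.infinite_setOfPred_prime).monotone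
  ext n
  constructor
  · intro h
    have h1 := h (Fin.last k)
    rw [Fin.val_last] at h1
    exact ⟨fun j => ⟨(h j).2.2.1, (h j).2.2.2⟩, h1.1, h1.2.1⟩
  · rintro ⟨h1, h2, h3⟩ j
    have h4 : Nat.nth Nat.Prime (n + j) ≤ Nat.nth Nat.Prime (n + k) := hmono (by
      have := j.2
      omega)
    exact ⟨h4.trans h2, h4.trans h3, (h1 j).1, (h1 j).2⟩

private theorem good_of {L s Q t : ℕ} {α : Fin t → ℝ} (h : Pool.Agent.H95.RO.GoodT L s Q α) (r : ℕ)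
    (a b : (ZMod Q)ˣ) (x y : Fin t → ℝ) : OccursIn (2 * r + 1) L s Q α
      (fun j => if (j : ℕ) ≤ r then a else b) (fun j => if (j : ℕ) ≤ r then x else y) := by
  intro ε hε
  obtain ⟨u, hu0, hu⟩ := h r a b x y ε hε
  refine ⟨u, hu0, hu.mono fun m hm => ⟨hm.1, fun j => ?_⟩⟩
  obtain ⟨h1, h2, h3⟩ := hm.2 j
  refine ⟨h1, ?_, fun i => ?_⟩
  · rw [h2]
  · obtain ⟨z, hz⟩ := h3 i
    refine ⟨z, ?_⟩
    by_cases hj : (j : ℕ) ≤ r
    · simp only [if_pos hj] at hz ⊢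
      exact hz
    · simp only [if_neg hj] at hz ⊢
      exact hz

private theorem often_of {L s Q t : ℕ} {α : Fin t → ℝ} (h : Pool.Agent.H95.RO.GoodF L s Q α) (r : ℕ)
    (a b : (ZMod Q)ˣ) (x y : Fin t → ℝ) : FrequentIn (2 * r + 1) L s Q α
      (fun j => if (j : ℕ) ≤ r then a else b) (fun j => if (j : ℕ) ≤ r then x else y) := by
  intro ε hε η hη
  obtain ⟨c, hc, h1⟩ := h r a b x y ε hε η hη
  refine ⟨c, hc, h1.mono fun N hN => hN.trans ?_⟩
  rw [Nat.cast_le]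
  refine Set.ncard_le_ncard ?_ ((Set.finite_lt_nat N).subset fun n hn => hn.1)
  rintro j ⟨hj0, hj, hj2⟩
  refine ⟨hj0, fun i => ?_, hj2⟩
  by_cases hi : (i : ℕ) ≤ r
  · obtain ⟨h2, h3, h4⟩ := (hj i).1 hi
    simp only [if_pos hi]
    exact ⟨h2, h3, fun l => ⟨_, h4 l⟩⟩
  · obtain ⟨h2, h3, h4⟩ := (hj i).2 hi
    simp only [if_neg hi]
    exact ⟨h2, h3, fun l => ⟨_, h4 l⟩⟩

private theorem word_occ {k L s Q d : ℕ} {α : Fin d → ℝ} {w : Fin (k + 1) → (ZMod Q)ˣ}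
    {y : Fin (k + 1) → Fin d → ℝ} (h : Pool.Agent.H95.RO.WordR k L s Q α w y) :
    OccursIn k L s Q α w y := by
  intro ε hε
  obtain ⟨C, hC⟩ := h ε hε
  obtain ⟨u, hu0, hu⟩ := Pool.Agent.H95.RO.fix_tuple k C (fun i p => p ≡ s [MOD L] ∧
    ((p : ℕ) : ZMod Q) = w i ∧ ∀ l, Pool.Agent.H95.RO.nd (α l * p - y i l) < ε) hC
  refine ⟨u, hu0, hu.mono fun m hm => ⟨hm.1, fun j => ?_⟩⟩
  obtain ⟨h1, h2, h3⟩ := hm.2 j
  exact ⟨h1, h2, fun i => ⟨_, h3 i⟩⟩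

private theorem word_freq {k L s Q d : ℕ} {α : Fin d → ℝ} {w : Fin (k + 1) → (ZMod Q)ˣ}
    {y : Fin (k + 1) → Fin d → ℝ} (h : Pool.Agent.H95.RO.WordF k L s Q α w y) :
    FrequentIn k L s Q α w y := by
  intro ε hε η hη
  obtain ⟨c, hc, h1⟩ := h ε hε η hη
  refine ⟨c, hc, h1.mono fun N hN => hN.trans ?_⟩
  rw [Nat.cast_le]
  refine Set.ncard_le_ncard ?_ ((Set.finite_lt_nat N).subset fun n hn => hn.1)
  rintro j ⟨hj0, hj, hj2⟩
  refine ⟨hj0, fun i => ?_, hj2⟩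
  obtain ⟨h2, h3, h4⟩ := hj i
  exact ⟨h2, h3, fun l => ⟨_, h4 l⟩⟩

private theorem all_occ {k L s Q d : ℕ} {α : Fin d → ℝ} (h : Pool.Agent.H95.RO.AllR k L s Q α)
    (w : Fin (k + 1) → (ZMod Q)ˣ) (y : Fin (k + 1) → Fin d → ℝ) : OccursIn k L s Q α w y :=
  word_occ (h w y)

private theorem all_freq {k L s Q d : ℕ} {α : Fin d → ℝ} (h : Pool.Agent.H95.RO.AllF k L s Q α)
    (w : Fin (k + 1) → (ZMod Q)ˣ) (y : Fin (k + 1) → Fin d → ℝ) : FrequentIn k L s Q α w y :=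
  word_freq (h w y)

private theorem gen_of {T : ℕ} {γ : Fin T → ℝ} (h : Generic γ) : Pool.Agent.H95.RO.Gen γ := h

theorem result :
    (∃ t : ℕ → ℕ, t 1 = 3 ∧ ∀ k : ℕ, ∃ K : ℕ, ∀ L s : ℕ, 0 < L → Nat.Coprime s L →
      (∃ E : Finset ℕ, E.card < t k ∧ ∀ p : ℕ, p.Prime → Nat.Coprime p L → p ∉ E →
        ∀ (e : ℕ) (w : Fin (k + 1) → (ZMod (p ^ e))ˣ),
          Occurs k L s (p ^ e) w ∧ Frequent k L s (p ^ e) w) ∧
      (∃ Q₀ : ℕ, 0 < Q₀ ∧ ∀ Q : ℕ, 0 < Q → Nat.Coprime Q Q₀ →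
        ∀ w : Fin (k + 1) → (ZMod Q)ˣ, Occurs k L s Q w ∧ Frequent k L s Q w) ∧
      ∀ Q : ℕ, 0 < Q → Nat.Coprime Q L → ∃ c : ℝ, 0 < c ∧ ∃ H₀ X₀ : ℕ,
        ∀ X ≥ X₀, ∀ H ≥ H₀, (H : ℝ) ≤ Real.log X →
          Q.totient ^ (k + 1) ≤ t k * {w : Fin (k + 1) → (ZMod Q)ˣ |
            c * (H / Real.log X) ^ K * (X / Real.log X) ≤ (number k L s Q w X H : ℝ)}.ncard) ∧
    (∃ T : ℕ → ℕ, ∀ k L s : ℕ, 0 < L → Nat.Coprime s L →
      (∀ (Q d : Fin (T k) → ℕ) (α : ∀ i, Fin (d i) → ℝ), (∀ i, 0 < Q i) →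
        (∀ i, Nat.Coprime (Q i) L) → (∀ i j, i ≠ j → Nat.Coprime (Q i) (Q j)) →
        Generic (fun x : Σ i, Fin (d i) => α x.1 x.2) →
          ∃ i, ∀ (w : Fin (k + 1) → (ZMod (Q i))ˣ) (y : Fin (k + 1) → Fin (d i) → ℝ),
            OccursIn k L s (Q i) (α i) w y ∧ FrequentIn k L s (Q i) (α i) w y) ∧
      ∃ (Q₀ : ℕ) (E : Finset ℝ), 0 < Q₀ ∧ E.card ≤ T k ∧ ∀ Q : ℕ, 0 < Q → Nat.Coprime Q L →
        Nat.Coprime Q Q₀ → ∀ α : ℝ, IsAlgebraic ℚ α → α ∉ Submodule.span ℚ (E : Set ℝ) →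
          ∀ (w : Fin (k + 1) → (ZMod Q)ˣ) (y : Fin (k + 1) → Fin 1 → ℝ),
            OccursIn k L s Q ![α] w y ∧ FrequentIn k L s Q ![α] w y) ∧
    (∃ C : ℕ → ℕ, C 1 = 3 ∧ ∀ k L s Q : ℕ, 0 < L → Nat.Coprime s L → 0 < Q → Nat.Coprime Q L →
      ∀ (d : ℕ) (α : Fin d → ℝ), Generic α →
        (Q.totient : ENNReal) ^ (k + 1) ≤ C k * ∑' w : Fin (k + 1) → (ZMod Q)ˣ,
          MeasureTheory.volume {y : Fin (k + 1) → Fin d → ℝ |
            (∀ j i, y j i ∈ Set.Ico (0 : ℝ) 1) ∧ OccursIn k L s Q α w y} ∧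
        (Q.totient : ENNReal) ^ (k + 1) ≤ C k * ∑' w : Fin (k + 1) → (ZMod Q)ˣ,
          MeasureTheory.volume {y : Fin (k + 1) → Fin d → ℝ |
            (∀ j i, y j i ∈ Set.Ico (0 : ℝ) 1) ∧ FrequentIn k L s Q α w y}) ∧
    ∀ L s : ℕ, 0 < L → Nat.Coprime s L →
      (∃ p₀ p₁ : ℕ, ∀ p : ℕ, p.Prime → Nat.Coprime p L → ∀ (e r : ℕ) (a b : (ZMod (p ^ e))ˣ),
        (p ≠ p₀ → Occurs (2 * r + 1) L s (p ^ e) (fun i => if (i : ℕ) ≤ r then a else b)) ∧
        (p ≠ p₁ → Frequent (2 * r + 1) L s (p ^ e) (fun i => if (i : ℕ) ≤ r then a else b))) ∧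
      (∀ Q Q' : ℕ, 0 < Q → 0 < Q' → Nat.Coprime Q L → Nat.Coprime Q' L → Nat.Coprime Q Q' →
        ∀ (d d' : ℕ) (α : Fin d → ℝ) (β : Fin d' → ℝ), Generic (Fin.append α β) →
          ((∀ (r : ℕ) (a b : (ZMod Q)ˣ) (x y : Fin d → ℝ), OccursIn (2 * r + 1) L s Q α
              (fun j => if (j : ℕ) ≤ r then a else b) (fun j => if (j : ℕ) ≤ r then x else y)) ∨
            ∀ (r : ℕ) (a b : (ZMod Q')ˣ) (x y : Fin d' → ℝ), OccursIn (2 * r + 1) L s Q' β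
              (fun j => if (j : ℕ) ≤ r then a else b) (fun j => if (j : ℕ) ≤ r then x else y)) ∧
          ((∀ (r : ℕ) (a b : (ZMod Q)ˣ) (x y : Fin d → ℝ), FrequentIn (2 * r + 1) L s Q α
              (fun j => if (j : ℕ) ≤ r then a else b) (fun j => if (j : ℕ) ≤ r then x else y)) ∨
            ∀ (r : ℕ) (a b : (ZMod Q')ˣ) (x y : Fin d' → ℝ), FrequentIn (2 * r + 1) L s Q' β
              (fun j => if (j : ℕ) ≤ r then a else b) (fun j => if (j : ℕ) ≤ r then x else y))) ∧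
      ∃ (Q₀ Q₁ : ℕ) (α₀ α₁ : ℝ), 0 < Q₀ ∧ 0 < Q₁ ∧ ∀ Q : ℕ, 0 < Q → Nat.Coprime Q L →
        ∀ α : ℝ, ¬ Liouville α → ∀ (r : ℕ) (a b : (ZMod Q)ˣ) (x y : Fin 1 → ℝ),
          (Nat.Coprime Q Q₀ → (∀ u v : ℚ, α ≠ u * α₀ + v) → OccursIn (2 * r + 1) L s Q ![α]
            (fun j => if (j : ℕ) ≤ r then a else b) (fun j => if (j : ℕ) ≤ r then x else y)) ∧
          (Nat.Coprime Q Q₁ → (∀ u v : ℚ, α ≠ u * α₁ + v) → FrequentIn (2 * r + 1) L s Q ![α]
            (fun j => if (j : ℕ) ≤ r then a else b) (fun j => if (j : ℕ) ≤ r then x else y)) := by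
  have h3 : ∀ α : ℝ, (![α] : Fin 1 → ℝ) = fun _ : Fin 1 => α := fun α => by
    funext i
    rw [Subsingleton.elim i 0]
    rfl
  refine ⟨?_, ?_, ?_, fun L s hL hs => ?_⟩
  · obtain ⟨t, ht, h⟩ := Pool.Agent.H21.WP.allW_all
    refine ⟨t, ht, fun k => ?_⟩
    obtain ⟨K, hK⟩ := h k
    refine ⟨K, fun L s hL hs => ?_⟩
    obtain ⟨⟨E, h2, h3⟩, ⟨Q₀, h4, h5⟩, h6⟩ := hK L s hL hs
    refine ⟨⟨E, h2, fun p hp hpL hpE e w =>
      ⟨(h3 p hp hpL hpE e w).1, freq_of (h3 p hp hpL hpE e w).2⟩⟩,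
      ⟨Q₀, h4, fun Q hQ hc w => ⟨(h5 Q hQ hc w).1, freq_of (h5 Q hQ hc w).2⟩⟩, fun Q hQ hQL => ?_⟩
    obtain ⟨c, hc, H₀, X₀, h7⟩ := h6 Q hQ hQL
    refine ⟨c, hc, H₀, X₀, fun X hX H hH hHX => (h7 X hX H hH hHX).trans ?_⟩
    simp only [number_eq]
    exact le_rfl
  · obtain ⟨T, hT⟩ := Pool.Agent.H95.RO.all_words_of Pool.Agent.H96.RW.coreW_of
    refine ⟨T, fun k L s hL hs => ⟨fun Q d α hQ hQL hQQ hg => ?_, ?_⟩⟩
    · obtain ⟨i, h1, h2⟩ := hT k L s hL hs Q d α hQ hQL hQQ hg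
      exact ⟨i, fun w y => ⟨all_occ h1 w y, all_freq h2 w y⟩⟩
    · obtain ⟨Q₀, E, h1, h2, h4⟩ := Pool.Agent.H95.RO.exc_one L (T k)
        (fun _ Q α => Pool.Agent.H95.RO.AllR k L s Q α ∧ Pool.Agent.H95.RO.AllF k L s Q α)
        (hT k L s hL hs)
      refine ⟨Q₀, E, h1, h2, fun Q hQ hQL hQQ α hα hE w y => ?_⟩
      rw [h3]
      exact ⟨all_occ (h4 Q hQ hQL hQQ α hα hE).1 w y, all_freq (h4 Q hQ hQL hQQ α hα hE).2 w y⟩
  · obtain ⟨C, hC1, hC⟩ := Pool.Agent.H95.RO.share3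
    refine ⟨C, hC1, fun k L s Q hL hs hQ hQL d α hg => ?_⟩
    obtain ⟨h4, h5⟩ := hC k L s hL hs Q hQ hQL d α hg.1 (Pool.Agent.H95.RO.scl_gen α hg.1 hg.2)
    refine ⟨h4.trans (mul_le_mul_right (ENNReal.tsum_le_tsum fun w => MeasureTheory.measure_mono ?_) _),
      h5.trans (mul_le_mul_right (ENNReal.tsum_le_tsum fun w => MeasureTheory.measure_mono ?_) _)⟩
    · rintro x ⟨hx1, hx2⟩
      exact ⟨hx1, word_occ hx2⟩
    · rintro x ⟨hx1, hx2⟩
      exact ⟨hx1, word_freq hx2⟩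
  · refine ⟨?_, fun Q Q' hQ hQ' hQL hQL' hQQ t t' α β hg =>
      ⟨(Pool.Agent.H95.RO.pair_good L s hL hs Q Q' hQ hQ' hQL hQL' hQQ α β (gen_of hg)).imp
        (fun h => good_of h) (fun h => good_of h),
      (Pool.Agent.H95.RO.pair_freq L s hL hs Q Q' hQ hQ' hQL hQL' hQQ α β (gen_of hg)).imp
        (fun h => often_of h) (fun h => often_of h)⟩, ?_⟩
    · obtain ⟨p₀, p₁, h1⟩ := Pool.Agent.H21.WP.strings_all L s hL hs
      exact ⟨p₀, p₁, fun p hp hpL e r a b => ⟨(h1 p hp hpL e r a b).1,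
        fun hne => freq_of ((h1 p hp hpL e r a b).2 hne)⟩⟩
    · obtain ⟨Q₀, α₀, h1, h2⟩ := Pool.Agent.H95.RO.one_line L s hL hs
      obtain ⟨Q₁, α₁, h1', h2'⟩ := Pool.Agent.H95.RO.one_line_freq L s hL hs
      refine ⟨Q₀, Q₁, α₀, α₁, h1, h1', fun Q hQ hQL α hα r a b x y => ?_⟩
      rw [h3]
      exact ⟨fun hQQ hl => good_of (h2 Q hQ hQL hQQ α hα hl) r a b x y,
        fun hQQ hl => often_of (h2' Q hQ hQL hQQ α hα hl) r a b x y⟩

end Pool.Agent.Results.MP_8923e7_nt.ConsecutiveWords
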