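import Pool.Agent.H62.AU.Main
import Pool.Agent.H34.STK.Main

/-!
The primes near a prime `p_n`, at every scale `z = t log p_n`, `t ≤ 1`, `z → ∞`. Let `x_1, ..., x_k` be points in a
small cube around `0` and `w_0, ..., w_k` reduced classes modulo `Q`, for any modulus `Q` outside a small exceptional set.
Then, along any family of scales, with frequency at least `d t ^ D`, `p_n` is `w_0` modulo `Q` and the primes `p' ≠ p_n`
with `|p' - p_n| < c z` are, up to `e z`, exactly at the points `p_n + x_j z`, those near the point number `j` are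
`w_j` modulo `Q`, and there are at least `K` of them there; moreover, for any finite colouring, `p_n` and `K` primes near
each point have one colour. For `t = 1`: every finite configuration near `0`, with classes, is in the support of EVERY limit
law of the primes near `p_n` at the scale `log p_n`.

Uniformly, without subsequences and for all shapes in `[-1, 1] ^ k` and all words at once: given `T` pairwise coprime moduli
`Q i` and any `T` scales `t_i log p_n`, `t_1 ≪ ... ≪ t_T ≪ 1`, for one of the `i` ALL words modulo `Q i` and ALL shapes `x` in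
`[-1, 1] ^ k` occur at the scale `t_i log p_n`, each with frequency at least `d t_1 ^ D`. So (all moduli `1`) for every large
`M` all the scales `z`, `(log log M) ^ (D + 1) ≤ z ≤ c log M`, outside at most `T - 1` intervals `[y, C y]` are full: all shapes
occur. In the same way, at one of any `2 k` separated scales `z = t_i log p_n`, for all `u` in `[0, 1] ^ k` and all words
modulo `Q i`: `k + 1` strings of consecutive primes, the string `j` in the class `w j`, within `e z`, with the jumps `u_j z` up to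
`e z`; for `k = 1` two scales suffice.
-/

namespace Pool.Agent.Results.MP_8923e7_nt.LimitLaws

/-- the gap between the primes number `n` and `n + 1` (the prime number `0` is `2`) -/
noncomputable def gap (n : ℕ) : ℕ := Nat.nth Nat.Prime (n + 1) - Nat.nth Nat.Prime n

/-- the scale `t log p_n` -/
noncomputable def sc (t : ℝ) (n : ℕ) : ℝ := t * Real.log (Nat.nth Nat.Prime n)

/-- pairs `(M, t)`: the primes number `n < M`, at the scale `t log p_n`; `t ≤ 1` and `t log M` is arbitrarily large -/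
def Scales (A : Set (ℕ × ℝ)) : Prop := ∀ B : ℝ, ∃ a ∈ A, a.2 ≤ 1 ∧ B ≤ a.2 * Real.log a.1

/-- `P t n` for at least `d t ^ D M` of the `n < M`, for some `d > 0` and pairs `(M, t)` in `A` with `t ≤ 1` and
arbitrarily large `t log M` -/
def PosAlong (D : ℕ) (A : Set (ℕ × ℝ)) (P : ℝ → ℕ → Prop) : Prop :=
  ∃ d : ℝ, 0 < d ∧ Scales {a | a ∈ A ∧ d * a.2 ^ D * a.1 ≤ ({n : ℕ | n < a.1 ∧ P a.2 n}.ncard : ℝ)}

/-- separated scales `t 0 ≪ t 1 ≪ ... ≪ 1`, all at least `τ`; `τ log M` is at least `B` and at least `B` times a power of the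
logarithms of the `t i log M` -/
def Chain {T : ℕ} (C B : ℝ) (D M : ℕ) (τ : ℝ) (t : Fin T → ℝ) : Prop :=
  B ≤ τ * Real.log M ∧ (∀ i, τ ≤ t i ∧ C * t i ≤ 1 ∧ B * Real.log (t i * Real.log M) ^ D ≤ τ * Real.log M) ∧
    ∀ i j, i < j → C * t i ≤ t j

/-- the primes near `p` have the shape `p + x h` up to `e h`, with the classes `w` modulo `Q` and the colour `q` -/
def Shape {k r : ℕ} (K L s₀ Q : ℕ) (w : Fin (k + 1) → ℕ) (χ : ℕ → Fin r) (q : Fin r) (x : Fin k → ℝ)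
    (R h e : ℝ) (p : ℕ) : Prop :=
  (p ≡ s₀ [MOD L] ∧ p ≡ w 0 [MOD Q] ∧ χ p = q) ∧
  (∀ p' : ℕ, p'.Prime → p' ≠ p → |(p' : ℝ) - p| < R * h →
    p' ≡ s₀ [MOD L] ∧ ∃ j, p' ≡ w (Fin.succ j) [MOD Q] ∧ |(p' : ℝ) - p - x j * h| < e * h) ∧
  ∀ j, ∃ Z : Finset ℕ, K ≤ Z.card ∧ ∀ p' ∈ Z, p'.Prime ∧ p' ≠ p ∧ p' ≡ s₀ [MOD L] ∧
    p' ≡ w (Fin.succ j) [MOD Q] ∧ χ p' = q ∧ |(p' : ℝ) - p - x j * h| < e * h

/-- all words `w` modulo `Q` and all small shapes `x` occur along `A` -/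
def Good {r : ℕ} (D k K L s₀ : ℕ) (χ : ℕ → Fin r) (A : Set (ℕ × ℝ)) (Q : ℕ) : Prop :=
  ∃ c : ℝ, 0 < c ∧ ∀ w : Fin (k + 1) → ℕ, (∀ j, Nat.Coprime (w j) Q) →
    ∀ x : Fin k → ℝ, (∀ j, |x j| ≤ c) → ∃ q : Fin r, ∀ e : ℝ, 0 < e →
      PosAlong D A (fun t n => Shape K L s₀ Q w χ q x c (sc t n) e (Nat.nth Nat.Prime n))

/-- from the prime number `n` on there are `k + 1` strings of consecutive primes: the string `j` has the primes number `i`,
`m j ≤ i < m (j + 1)`, at least `K` of them, all `w j` modulo `Q` and `s₀` modulo `L`, within `e h`; the gap between the strings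
`j` and `j + 1` is `u j h` up to `e h` -/
def Strings {k : ℕ} (K L s₀ Q : ℕ) (w : Fin (k + 1) → ℕ) (u : Fin k → ℝ) (h e : ℝ) (n : ℕ) : Prop :=
  ∃ m : Fin (k + 2) → ℕ, m 0 = n ∧
    (∀ j : Fin (k + 1), m j.castSucc + K ≤ m j.succ ∧
      (Nat.nth Nat.Prime (m j.succ - 1) : ℝ) - Nat.nth Nat.Prime (m j.castSucc) < e * h ∧
      ∀ i, m j.castSucc ≤ i → i < m j.succ →
        Nat.nth Nat.Prime i ≡ s₀ [MOD L] ∧ Nat.nth Nat.Prime i ≡ w j [MOD Q]) ∧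
    ∀ j : Fin k, |(gap (m j.succ.castSucc - 1) : ℝ) - u j * h| < e * h

/-- positive, prime to `L` and pairwise coprime -/
def Moduli {T : ℕ} (L : ℕ) (Q : Fin T → ℕ) : Prop :=
  (∀ i, 0 < Q i) ∧ (∀ i, Nat.Coprime (Q i) L) ∧ ∀ i j, i ≠ j → Nat.Coprime (Q i) (Q j)

theorem result (k K : ℕ) (hk : 1 ≤ k) (hK : 1 ≤ K) :
    (∀ r : ℕ, ∃ D : ℕ, ∀ L s₀ : ℕ, 0 < L → Nat.Coprime s₀ L → ∀ χ : ℕ → Fin r,
      (∀ A : Set (ℕ × ℝ), Scales A →
        (∀ Q : Fin (100 * r * (k + K - 1)) → ℕ, Moduli L Q → ∃ i, Good D k K L s₀ χ A (Q i)) ∧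
        ∃ Q₀ : ℕ, 0 < Q₀ ∧ ∀ Q : ℕ, 0 < Q → Nat.Coprime Q Q₀ → Good D k K L s₀ χ A Q) ∧
      ∀ Q : Fin (100 * r * (k + K - 1)) → ℕ, Moduli L Q → ∀ e : ℝ, 0 < e →
        ∃ C d B : ℝ, 1 ≤ C ∧ 0 < d ∧
          ∀ (M : ℕ) (τ : ℝ) (t : Fin (100 * r * (k + K - 1)) → ℝ), Chain C B D M τ t →
            ∃ i, ∀ w : Fin (k + 1) → ℕ, (∀ j, Nat.Coprime (w j) (Q i)) → ∀ x : Fin k → ℝ, (∀ j, |x j| ≤ 1) →
              ∃ q : Fin r, d * τ ^ D * M ≤
                ({n : ℕ | n < M ∧ Shape K L s₀ (Q i) w χ q x 1 (sc (t i) n) e (Nat.nth Nat.Prime n)}.ncard : ℝ)) ∧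
    (∃ D : ℕ, ∀ L s₀ : ℕ, 0 < L → Nat.Coprime s₀ L → ∀ Q : Fin (2 * k) → ℕ, Moduli L Q → ∀ e : ℝ, 0 < e →
      ∃ C d B : ℝ, 1 ≤ C ∧ 0 < d ∧ ∀ (M : ℕ) (τ : ℝ) (t : Fin (2 * k) → ℝ), Chain C B D M τ t →
        ∃ i, ∀ w : Fin (k + 1) → ℕ, (∀ j, Nat.Coprime (w j) (Q i)) → ∀ u : Fin k → ℝ, (∀ j, 0 ≤ u j ∧ u j ≤ 1) →
          d * τ ^ D * M ≤ ({n : ℕ | n < M ∧ Strings K L s₀ (Q i) w u (sc (t i) n) e n}.ncard : ℝ)) ∧
    ∀ (D r L s₀ : ℕ) (χ : ℕ → Fin r) (A : Set (ℕ × ℝ)) (Q : ℕ), Good D 2 1 L s₀ χ A Q → ∃ c : ℝ, 0 < c ∧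
      ∀ w : Fin 3 → ℕ, (∀ j, Nat.Coprime (w j) Q) →
      ∀ u v : ℝ, 0 ≤ u → u ≤ c → 0 ≤ v → v ≤ c → ∀ e : ℝ, 0 < e → PosAlong D A (fun t n =>
        |(gap n : ℝ) - u * sc t n| < e * sc t n ∧ |(gap (n + 1) : ℝ) - v * sc t n| < e * sc t n ∧
        ∀ j : Fin 3, Nat.nth Nat.Prime (n + (j : ℕ)) ≡ s₀ [MOD L] ∧
          Nat.nth Nat.Prime (n + (j : ℕ)) ≡ w j [MOD Q]) := by
  refine ⟨fun r => ?_, ?_, fun D r L s₀ χ A Q h => Pool.Agent.H82.AS.three_goodS h⟩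
  · obtain ⟨D, h⟩ := Pool.Agent.H62.AU.main1 k K r hk hK
    refine ⟨D, fun L s₀ hL hs χ => ?_⟩
    obtain ⟨h1, h2⟩ := h L s₀ hL hs χ
    refine ⟨fun A hA => ?_, fun Q hQ e he => h2 Q hQ.1 hQ.2.1 hQ.2.2 e he⟩
    obtain ⟨h3, h4⟩ := h1 A hA
    exact ⟨fun Q hQ => h3 Q hQ.1 hQ.2.1 hQ.2.2, h4⟩
  · obtain ⟨D, h⟩ := Pool.Agent.H34.STK.strk2 k K hk hK
    exact ⟨D, fun L s₀ hL hs Q hQ e he => h L s₀ hL hs Q hQ.1 hQ.2.1 hQ.2.2 e he⟩

end Pool.Agent.Results.MP_8923e7_nt.LimitLaws
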